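import Pool.Agent.Work.MP_20070e_gt.Y.YMain

set_option autoImplicit false

open Topology

namespace Pool.Agent.Results.MP_20070e_gt.LocalExtensions

open Pool.Agent.Work.MP_20070e_gt Pool.Agent.Work.MP_20070e_gt.X Pool.Agent.Work.MP_20070e_gt.Y

/-- **Structure of local extensions.**  Let `n = m + 1 ≥ 3`, `Γ < SL_n(ℝ)` any lattice, `α` a smooth
action of `Γ` on an `n`-manifold `M` and `Σ = φ(S^{n-1})` an invariant copy of `S^{n-1}` or of
`ℝP^{n-1}` with the standard action.  If `θ` is a local `SL_n(ℝ)`-action near `Σ` which extends `α`,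
then `θ` preserves `Σ`, it is the standard action of `SL_n(ℝ)` on `Σ`, and every `γ ∈ Γ` preserves
the sides of `Σ`: for every continuous function `ρ` near `Σ` which vanishes exactly on `Σ`, if
`ρ(z) > 0` and `z` is close enough to `Σ`, then `ρ(γ z) > 0`. -/
theorem result (m : ℕ) (hm : 2 ≤ m) (Γ : Subgroup (SLn (m + 1))) (hΓ : IsLattice Γ)
    (proj : Prop) (M : Type) [TopologicalSpace M] [ChartedSpace (Eu (m + 1)) M]
    (hM : IsSmoothManifold (m + 1) M) (α : SmoothAction Γ M) (φ : Sph (m + 1) → M)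
    (hφ : IsModel proj φ) (hst : IsStandardOn α φ) (U : Set M) (W : Set (SLn (m + 1) × M))
    (θ : SLn (m + 1) × M → M) (hθ : IsLocalExtension α (Set.range φ) U W θ) :
    (∀ (g : SLn (m + 1)) (x : Sph (m + 1)), θ (g, φ x) = φ (sphAct g x)) ∧
      ∀ (V : Set M) (ρ : M → ℝ), IsOpen V → Set.range φ ⊆ V → ContinuousOn ρ V →
        (∀ z ∈ V, ρ z = 0 ↔ z ∈ Set.range φ) →
        ∀ γ : Γ, ∀ᶠ z in 𝓝ˢ (Set.range φ), 0 < ρ z → 0 < ρ (α.toFun γ z) :=
  main_structure m hm Γ hΓ proj M hM α φ hφ hst U W θ hθ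

end Pool.Agent.Results.MP_20070e_gt.LocalExtensions
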