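import Pool.Agent.Work.MP_20070e_gt.Y.YMain

set_option autoImplicit false

namespace Pool.Agent.Results.MP_20070e_gt.NotExtendableAll

open Pool.Agent.Work.MP_20070e_gt Pool.Agent.Work.MP_20070e_gt.X Pool.Agent.Work.MP_20070e_gt.Y

/-- **Negative answer to Q1, for every `n = m + 1 ≥ 3` and for both kinds of `Σ`.**
(1) There is a cocompact lattice `Γ < SL_n(ℝ)` with a nontrivial homomorphism to `{±1}` which has
smooth actions on `n`-manifolds with an invariant copy of `S^{n-1}`, respectively of `ℝP^{n-1}`,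
with the standard action, that do not extend to a local `SL_n(ℝ)`-action near it.
(2) The same holds for every lattice (cocompact or not) with a nontrivial homomorphism to `{±1}`. -/
theorem result (m : ℕ) (hm : 2 ≤ m) :
    (∃ Γ : Subgroup (SLn (m + 1)), IsLattice Γ ∧ IsUniformLattice Γ ∧
      HasSign Γ ∧ HasNonExtendable False Γ ∧ HasNonExtendable True Γ) ∧
    ∀ Γ : Subgroup (SLn (m + 1)), IsLattice Γ → HasSign Γ →
      HasNonExtendable False Γ ∧ HasNonExtendable True Γ := by
  obtain ⟨⟨Γ, h1, h2, h3⟩, h4⟩ := main_neg m hm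
  exact ⟨⟨Γ, h1, h2, h3, h4 Γ h1 h3⟩, h4⟩

end Pool.Agent.Results.MP_20070e_gt.NotExtendableAll
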